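import Pool.Agent.H547.C9.Stm3

set_option autoImplicit false

/-!
# Clausen's identity for `C(2k,k)² C(3k,k)` as a truncated power series identity
-/

namespace Pool.Agent.H21.C9

open Finset PowerSeries Pool.Agent.H547.P3

/-- `(3k)!/k!³` -/
noncomputable def hq (k : ℕ) : ℚ := ((3 * k).factorial : ℚ) / (k.factorial : ℚ) ^ 3

/-- `(2k)! (3k)!/k!⁵` -/
noncomputable def vq (k : ℕ) : ℚ :=
  ((2 * k).factorial : ℚ) * ((3 * k).factorial : ℚ) / (k.factorial : ℚ) ^ 5

theorem hq_zero : hq 0 = 1 := by simp [hq]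

theorem hq_eq (k : ℕ) : ((k.centralBinom * (3 * k).choose k : ℕ) : ℚ) = hq k := by
  unfold hq
  rw [Nat.centralBinom_eq_two_mul_choose]
  push_cast
  rw [Nat.cast_choose ℚ (show k ≤ 2 * k by omega), Nat.cast_choose ℚ (show k ≤ 3 * k by omega),
    show 2 * k - k = k by omega, show 3 * k - k = 2 * k by omega]
  have h1 : (k.factorial : ℚ) ≠ 0 := by positivity
  have h2 : ((2 * k).factorial : ℚ) ≠ 0 := by positivity
  field_simp

theorem vq_eq (k : ℕ) : ((k.centralBinom ^ 2 * (3 * k).choose k : ℕ) : ℚ) = vq k := by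
  unfold vq
  rw [Nat.centralBinom_eq_two_mul_choose]
  push_cast
  rw [Nat.cast_choose ℚ (show k ≤ 2 * k by omega), Nat.cast_choose ℚ (show k ≤ 3 * k by omega),
    show 2 * k - k = k by omega, show 3 * k - k = 2 * k by omega]
  have h1 : (k.factorial : ℚ) ≠ 0 := by positivity
  have h2 : ((2 * k).factorial : ℚ) ≠ 0 := by positivity
  field_simp

theorem hq_succ (k : ℕ) :
    ((k : ℚ) + 1) ^ 2 * hq (k + 1) = (27 * (k : ℚ) ^ 2 + 27 * k + 6) * hq k := by
  unfold hq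
  rw [show 3 * (k + 1) = 3 * k + 1 + 1 + 1 by ring, Nat.factorial_succ, Nat.factorial_succ,
    Nat.factorial_succ, Nat.factorial_succ k]
  push_cast
  have h1 : (k.factorial : ℚ) ≠ 0 := by positivity
  have h2 : ((k : ℚ) + 1) ≠ 0 := by positivity
  field_simp
  ring

theorem vq_succ (k : ℕ) :
    ((k : ℚ) + 1) ^ 3 * vq (k + 1) = (108 * (k : ℚ) ^ 3 + 162 * k ^ 2 + 78 * k + 12) * vq k := by
  unfold vq
  rw [show 3 * (k + 1) = 3 * k + 1 + 1 + 1 by ring, show 2 * (k + 1) = 2 * k + 1 + 1 by ring,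
    Nat.factorial_succ, Nat.factorial_succ, Nat.factorial_succ, Nat.factorial_succ,
    Nat.factorial_succ, Nat.factorial_succ k]
  push_cast
  have h1 : (k.factorial : ℚ) ≠ 0 := by positivity
  have h2 : ((k : ℚ) + 1) ≠ 0 := by positivity
  field_simp
  ring

/-- the series `φ` over `ℚ` -/
noncomputable def ph : ℚ⟦X⟧ := PowerSeries.mk hq

theorem coeff_th {A : Type*} [CommRing A] (f : A⟦X⟧) (n : ℕ) : coeff n (th f) = (n : A) * coeff n f := by
  unfold th
  rcases n with _ | n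
  · simp
  · rw [coeff_succ_X_mul, coeff_derivative]
    push_cast
    ring

/-- the differential equation of `φ` -/
theorem ph_ode : (1 - 27 * X) * th (th ph) = 27 * X * th ph + 6 * X * ph := by
  ext n
  have e1 : (1 - 27 * X) * th (th ph) = th (th ph) - C (27 : ℚ) * (X * th (th ph)) := by
    have : (C (27 : ℚ) : ℚ⟦X⟧) = 27 := by rw [map_ofNat]
    rw [this]; ring
  have e2 : 27 * X * th ph + 6 * X * ph = C (27 : ℚ) * (X * th ph) + C (6 : ℚ) * (X * ph) := by
    have h27 : (C (27 : ℚ) : ℚ⟦X⟧) = 27 := by rw [map_ofNat]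
    have h6 : (C (6 : ℚ) : ℚ⟦X⟧) = 6 := by rw [map_ofNat]
    rw [h27, h6]; ring
  rw [e1, e2, map_sub, map_add, coeff_C_mul, coeff_C_mul, coeff_C_mul]
  rcases n with _ | n
  · simp [th]
  · rw [coeff_succ_X_mul, coeff_succ_X_mul, coeff_succ_X_mul]
    simp only [coeff_th]
    rw [ph, coeff_mk, coeff_mk]
    have h1 := hq_succ n
    push_cast
    linear_combination h1

theorem th_int (n : ℤ) : th ((n : ℚ⟦X⟧)) = 0 := by
  have : ((n : ℚ⟦X⟧)) = C (n : ℚ) := by rw [map_intCast]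
  rw [this, th_C]

theorem th_pow_two (f : ℚ⟦X⟧) : th (f ^ 2) = 2 * f * th f := by
  rw [pow_two, th_mul]; ring

theorem th_M : th (1 - 27 * X : ℚ⟦X⟧) = -(27 * X) := by
  have h1 : (1 : ℚ⟦X⟧) = C (1 : ℚ) := by rw [map_one]
  have h27 : (27 : ℚ⟦X⟧) = C (27 : ℚ) := by rw [map_ofNat]
  rw [th_sub, th_mul, th_X, h1, h27, th_C, th_C]
  ring

theorem th_Q : th (1 - 54 * X : ℚ⟦X⟧) = -(54 * X) := by
  have h1 : (1 : ℚ⟦X⟧) = C (1 : ℚ) := by rw [map_one]
  have h27 : (54 : ℚ⟦X⟧) = C (54 : ℚ) := by rw [map_ofNat]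
  rw [th_sub, th_mul, th_X, h1, h27, th_C, th_C]
  ring

/-- uniqueness for the third order equation -/
theorem uniq3 (W Q2 Y a b c δ : ℚ⟦X⟧) (K : ℕ) (hW : constantCoeff W = 1)
    (hQ : constantCoeff Q2 = 1) (hY : constantCoeff Y = 0) (h0 : constantCoeff δ = 0)
    (h : X ^ K ∣ Q2 * (W * th (W * th (W * th δ))) -
      Y * (a * (W * th (W * th δ)) + b * (W * th δ) + c * δ)) : X ^ K ∣ δ := by
  have key : ∀ n ≤ K, X ^ n ∣ δ := by
    intro n
    induction n with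
    | zero => intro _; simp
    | succ n ih =>
      intro hn
      obtain ⟨u, hu⟩ := ih (by omega)
      rcases Nat.eq_zero_or_pos n with hn0 | hn0
      · subst hn0
        rw [zero_add, pow_one, X_dvd_iff]
        exact h0
      · have hstep : ∀ u : ℚ⟦X⟧, W * th (X ^ n * u) = X ^ n * (W * ((n : ℚ⟦X⟧) * u + th u)) := by
          intro u
          rw [th_mul, th_X_pow]
          ring
        have hcst : ∀ u : ℚ⟦X⟧, constantCoeff (W * ((n : ℚ⟦X⟧) * u + th u)) = n * constantCoeff u := by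
          intro u
          rw [map_mul, hW, one_mul, map_add, map_mul, map_natCast]
          have : constantCoeff (th u) = 0 := by unfold th; simp
          rw [this, add_zero]
        rw [hu, hstep, hstep, hstep] at h
        set u1 := W * ((n : ℚ⟦X⟧) * u + th u) with hu1
        set u2 := W * ((n : ℚ⟦X⟧) * u1 + th u1) with hu2
        set u3 := W * ((n : ℚ⟦X⟧) * u2 + th u2) with hu3
        have h1 : X ^ (n + 1) ∣ X ^ n * (Q2 * u3 - Y * (a * u2 + b * u1 + c * u)) := by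
          refine (pow_dvd_pow X hn).trans ?_
          convert h using 1
          ring
        rw [pow_succ] at h1
        have h2 : X ∣ (Q2 * u3 - Y * (a * u2 + b * u1 + c * u)) :=
          (mul_dvd_mul_iff_left (pow_ne_zero n X_ne_zero)).1 h1
        have e3 : constantCoeff u3 = n * constantCoeff u2 := hcst u2
        have e2 : constantCoeff u2 = n * constantCoeff u1 := hcst u1
        have e1 : constantCoeff u1 = n * constantCoeff u := hcst u
        rw [X_dvd_iff, map_sub, map_mul _ Q2 u3, map_mul _ Y, hY, zero_mul, sub_zero, hQ, one_mul,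
          e3, e2, e1] at h2
        have hn' : (n : ℚ) ≠ 0 := by positivity
        have h3 : constantCoeff u = 0 := by
          simpa [hn'] using h2
        rw [hu, pow_succ]
        exact mul_dvd_mul_left _ (X_dvd_iff.2 h3)
  exact key K le_rfl

/-- the truncated sums -/
noncomputable def Gs (i K : ℕ) : ℚ⟦X⟧ :=
  ∑ k ∈ range K, C ((k : ℚ) ^ i * vq k) * (X * (1 - 27 * X)) ^ k

theorem th_Y_pow (k : ℕ) : (1 - 27 * X) * th ((X * (1 - 27 * X) : ℚ⟦X⟧) ^ k) =
    (1 - 54 * X) * ((k : ℚ⟦X⟧) * (X * (1 - 27 * X)) ^ k) := by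
  induction k with
  | zero =>
    have : th (1 : ℚ⟦X⟧) = 0 := by simpa using th_C (1 : ℚ)
    rw [pow_zero, this]; simp
  | succ k ih =>
    rw [pow_succ, th_mul, th_mul X, th_X, th_M]
    push_cast
    linear_combination (X * (1 - 27 * X)) * ih

theorem th_Gs (i K : ℕ) : (1 - 27 * X) * th (Gs i K) = (1 - 54 * X) * Gs (i + 1) K := by
  unfold Gs
  rw [th_sum, mul_sum, mul_sum]
  refine sum_congr rfl fun k _ => ?_
  rw [th_mul, th_C, pow_succ (k : ℚ) i, map_mul, map_mul, map_mul, map_natCast]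
  linear_combination (C ((k : ℚ) ^ i) * C (vq k)) * th_Y_pow k

theorem Gs_rel (K : ℕ) : (1 - 54 * X) ^ 2 * Gs 3 K -
    X * (1 - 27 * X) * (162 * Gs 2 K + 78 * Gs 1 K + 12 * Gs 0 K) =
    -(C ((K : ℚ) ^ 3 * vq K) * (X * (1 - 27 * X)) ^ K) := by
  induction K with
  | zero => simp [Gs]
  | succ K ih =>
    have hs : ∀ i, Gs i (K + 1) = Gs i K + C ((K : ℚ) ^ i * vq K) * (X * (1 - 27 * X)) ^ K := by
      intro i
      unfold Gs
      rw [sum_range_succ]
    rw [hs, hs, hs, hs]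
    have h1 := congrArg (C (R := ℚ)) (vq_succ K)
    push_cast
    simp only [map_mul, map_pow, map_add, map_one, map_natCast, map_ofNat] at h1 ih ⊢
    linear_combination ih + (X * (1 - 27 * X)) ^ (K + 1) * h1

/-- the exact equation for `φ²` -/
theorem ph_rel (q : ℚ⟦X⟧) (hq : (1 - 54 * X) * q = 1) :
    (1 - 54 * X) ^ 2 * ((1 - 27 * X) * q * th ((1 - 27 * X) * q * th ((1 - 27 * X) * q * th (ph ^ 2)))) -
      X * (1 - 27 * X) * (162 * ((1 - 27 * X) * q * th ((1 - 27 * X) * q * th (ph ^ 2))) +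
        78 * ((1 - 27 * X) * q * th (ph ^ 2)) + 12 * ph ^ 2) = 0 := by
  set M : ℚ⟦X⟧ := 1 - 27 * X with hM
  set Q : ℚ⟦X⟧ := 1 - 54 * X with hQ
  set P0 := ph with hP0
  set P1 := th ph with hP1
  have hode : M * th P1 = 27 * X * P1 + 6 * X * P0 := ph_ode
  obtain ⟨G1, hG1⟩ : ∃ G1, G1 = M * q * th (P0 ^ 2) := ⟨_, rfl⟩
  obtain ⟨G2, hG2⟩ : ∃ G2, G2 = M * q * th G1 := ⟨_, rfl⟩
  obtain ⟨G3, hG3⟩ : ∃ G3, G3 = M * q * th G2 := ⟨_, rfl⟩
  rw [← hG1, ← hG2, ← hG3]
  have t0 : th (P0 ^ 2) = 2 * P0 * P1 := th_pow_two _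
  have a1 : Q * G1 = 2 * M * P0 * P1 := by
    rw [hG1, t0]; linear_combination (M * (2 * P0 * P1)) * hq
  have a2 : Q * G2 = M * th G1 := by
    rw [hG2]; linear_combination (M * th G1) * hq
  have a3 : Q * G3 = M * th G2 := by
    rw [hG3]; linear_combination (M * th G2) * hq
  have tM : th M = -(27 * X) := th_M
  have tQ : th Q = -(54 * X) := th_Q
  have t2 : th (2 : ℚ⟦X⟧) = 0 := by
    have : (2 : ℚ⟦X⟧) = C (2 : ℚ) := by rw [map_ofNat]
    rw [this, th_C]
  have t12 : th (12 : ℚ⟦X⟧) = 0 := by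
    have : (12 : ℚ⟦X⟧) = C (12 : ℚ) := by rw [map_ofNat]
    rw [this, th_C]
  have t108 : th (108 : ℚ⟦X⟧) = 0 := by
    have : (108 : ℚ⟦X⟧) = C (108 : ℚ) := by rw [map_ofNat]
    rw [this, th_C]
  have tP0 : th P0 = P1 := rfl
  have b1 := congrArg th a1
  rw [th_mul, th_mul, th_mul, th_mul, t2, tM, tQ, tP0] at b1
  -- `Q^2 th G1`
  have c1 : Q ^ 2 * th G1 = 2 * Q * (M * P1 ^ 2 + 6 * X * P0 ^ 2) + 108 * X * M * P0 * P1 := by
    linear_combination Q * b1 + 54 * X * a1 + 2 * Q * P0 * hode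
  have c2 : Q ^ 3 * G2 = 2 * Q * M ^ 2 * P1 ^ 2 + 12 * X * M * Q * P0 ^ 2 + 108 * X * M ^ 2 * P0 * P1 := by
    linear_combination Q ^ 2 * a2 + M * c1
  have b2 := congrArg th c2
  have tQ3 : th (Q ^ 3) = -(162 * X * Q ^ 2) := by
    rw [pow_succ, th_mul, th_pow_two, tQ]; ring
  simp only [th_add, th_mul, th_X, th_pow_two, t2, t12, t108, tM, tQ, tP0, tQ3] at b2
  have hMQ : Q = M - 27 * X := by rw [hM, hQ]; ring
  -- `Q^3 th G2`
  have c3 : Q ^ 3 * th G2 = 162 * X * Q ^ 2 * G2 + X * (156 * Q * M * P0 * P1 + 12 * Q ^ 2 * P0 ^ 2) := by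
    linear_combination b2 + (4 * Q * M * P1 + 108 * X * M * P0) * hode -
      (12 * X * Q * P0 ^ 2 + 108 * X * M * P0 * P1) * hMQ
  have hQ0 : Q ≠ 0 := by
    intro h
    rw [h, zero_mul] at hq
    exact zero_ne_one hq
  refine mul_left_cancel₀ (pow_ne_zero 3 hQ0) ?_
  linear_combination Q ^ 4 * a3 + Q * M * c3 - 78 * X * M * Q ^ 2 * a1

/-- Clausen's identity over `ℚ`, truncated -/
theorem bf_Q (K : ℕ) : X ^ K ∣ ph ^ 2 - ∑ k ∈ range K, C (vq k) * (X * (1 - 27 * X)) ^ k := by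
  rcases Nat.eq_zero_or_pos K with h0 | h0
  · subst h0; simp
  have hG0 : Gs 0 K = ∑ k ∈ range K, C (vq k) * (X * (1 - 27 * X)) ^ k := by
    unfold Gs
    refine sum_congr rfl fun k _ => ?_
    rw [pow_zero, one_mul]
  rw [← hG0]
  have hccQ : constantCoeff (1 - 54 * X : ℚ⟦X⟧) = 1 := by simp
  have hccM : constantCoeff (1 - 27 * X : ℚ⟦X⟧) = 1 := by simp
  obtain ⟨q, hq⟩ : ∃ q : ℚ⟦X⟧, (1 - 54 * X) * q = 1 := by
    have hu : IsUnit (1 - 54 * X : ℚ⟦X⟧) := by
      rw [PowerSeries.isUnit_iff_constantCoeff, hccQ]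
      exact isUnit_one
    exact hu.exists_right_inv
  have hccq : constantCoeff q = 1 := by
    have := congrArg (constantCoeff (R := ℚ)) hq
    rwa [map_mul, hccQ, one_mul, map_one] at this
  have hG : ∀ i, (1 - 27 * X) * q * th (Gs i K) = Gs (i + 1) K := by
    intro i
    linear_combination q * th_Gs i K + Gs (i + 1) K * hq
  refine uniq3 ((1 - 27 * X) * q) ((1 - 54 * X) ^ 2) (X * (1 - 27 * X)) 162 78 12 _ K ?_ ?_ ?_ ?_ ?_
  · rw [map_mul, hccM, hccq, one_mul]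
  · rw [map_pow, hccQ, one_pow]
  · simp
  · rw [map_sub, map_pow, ← coeff_zero_eq_constantCoeff_apply ph, ph, coeff_mk]
    have h1 : constantCoeff (Gs 0 K) = 1 := by
      unfold Gs
      rw [map_sum, sum_eq_single 0]
      · simp [vq]
      · intro k _ hk
        simp [hk]
      · intro h
        exact absurd (mem_range.2 h0) h
    rw [h1]
    simp [hq_zero]
  · rw [th_sub, mul_sub, hG, th_sub, mul_sub, hG, th_sub, mul_sub, hG]
    have h1 := ph_rel q hq
    have h2 := Gs_rel K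
    refine ⟨C ((K : ℚ) ^ 3 * vq K) * (1 - 27 * X) ^ K, ?_⟩
    have h3 : (X * (1 - 27 * X) : ℚ⟦X⟧) ^ K = X ^ K * (1 - 27 * X) ^ K := mul_pow _ _ _
    rw [h3] at h2
    norm_num only [zero_add] at *
    linear_combination h1 - h2

theorem h3_eq (k : ℕ) : ((Pool.Agent.H547.C9.h3 k : ℕ) : ℚ) = hq k := hq_eq k

theorem v3_eq (k : ℕ) : ((Pool.Agent.H547.C9.v3 k : ℕ) : ℚ) = vq k := vq_eq k

/-- Clausen's identity over `ℤ`, truncated -/
theorem bf_Z (K : ℕ) : X ^ K ∣ (PowerSeries.mk fun k => ((Pool.Agent.H547.C9.h3 k : ℕ) : ℤ)) ^ 2 -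
    ∑ k ∈ range K, C ((Pool.Agent.H547.C9.v3 k : ℕ) : ℤ) * (X * (1 - 27 * X)) ^ k := by
  have h1 := bf_Q K
  rw [X_pow_dvd_iff] at h1 ⊢
  intro n hn
  have h2 := h1 n hn
  have e1 : PowerSeries.map (Int.castRingHom ℚ)
      ((PowerSeries.mk fun k => ((Pool.Agent.H547.C9.h3 k : ℕ) : ℤ)) ^ 2 -
        ∑ k ∈ range K, C ((Pool.Agent.H547.C9.v3 k : ℕ) : ℤ) * (X * (1 - 27 * X)) ^ k) =
      ph ^ 2 - ∑ k ∈ range K, C (vq k) * (X * (1 - 27 * X)) ^ k := by
    rw [map_sub, map_pow, map_sum]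
    have e2 : PowerSeries.map (Int.castRingHom ℚ)
        (PowerSeries.mk fun k => ((Pool.Agent.H547.C9.h3 k : ℕ) : ℤ)) = ph := by
      ext k
      rw [PowerSeries.coeff_map, coeff_mk, ph, coeff_mk, ← h3_eq]
      simp
    rw [e2]
    congr 1
    refine sum_congr rfl fun k _ => ?_
    rw [map_mul, map_pow, map_mul, map_sub, map_mul, PowerSeries.map_X, PowerSeries.map_C, map_one,
      map_ofNat, ← v3_eq]
    simp
  rw [← e1, PowerSeries.coeff_map, eq_intCast] at h2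
  exact_mod_cast h2

theorem Bf : Pool.Agent.H547.C9.S_Bf := by
  intro A _ K
  obtain ⟨g, hg⟩ := bf_Z K
  refine ⟨PowerSeries.map (Int.castRingHom A) g, ?_⟩
  have h1 := congrArg (PowerSeries.map (Int.castRingHom A)) hg
  rw [map_sub, map_pow, map_sum, map_mul, map_pow, PowerSeries.map_X] at h1
  rw [← h1]
  have e2 : PowerSeries.map (Int.castRingHom A)
      (PowerSeries.mk fun k => ((Pool.Agent.H547.C9.h3 k : ℕ) : ℤ)) = Pool.Agent.H547.C9.phi A := by
    ext k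
    rw [PowerSeries.coeff_map, coeff_mk, Pool.Agent.H547.C9.phi, coeff_mk]
    simp
  rw [e2]
  congr 1
  refine sum_congr rfl fun k _ => ?_
  rw [map_mul, map_pow, map_mul, map_sub, map_mul, PowerSeries.map_X, PowerSeries.map_C, map_one,
    map_ofNat]
  simp

end Pool.Agent.H21.C9
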